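import Pool.Agent.helper52.EU.SpecI
import Pool.Agent.helper76.FI.PLN

/-!
# Project eu (MP_ad8ced_nt), row CHE: characters detect the residue class, three ranges of the conductor
-/

set_option autoImplicit false

open Finset

noncomputable section

namespace Pool.Agent.EU

open Pool.Agent.FI Pool.Agent.FJ

open scoped Classical in
private theorem CHE_key {D : ℕ} [NeZero D] {ω : ℤ} (hω : IsCoprime ω (D : ℤ)) (l₁ l₂ : ℤ) :
    ∑ χ : DirichletCharacter ℂ D, (starRingEnd ℂ) (χ (ω : ZMod D)) *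
      (χ (l₂ : ZMod D) * (starRingEnd ℂ) (χ (l₁ : ZMod D))) =
      if IsCoprime l₁ (D : ℤ) ∧ (D : ℤ) ∣ l₂ - ω * l₁ then (Nat.totient D : ℂ) else 0 := by
  have huω : IsUnit (ω : ZMod D) := (ZMod.coe_int_isUnit_iff_isCoprime ω D).2 hω.symm
  by_cases hc : IsCoprime l₁ (D : ℤ)
  · have hu : IsUnit (l₁ : ZMod D) := (ZMod.coe_int_isUnit_iff_isCoprime l₁ D).2 hc.symm
    have hun : IsUnit ((ω : ZMod D) * (l₁ : ZMod D)) := huω.mul hu
    have h1 : ∀ χ : DirichletCharacter ℂ D, (starRingEnd ℂ) (χ (ω : ZMod D)) *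
        (χ (l₂ : ZMod D) * (starRingEnd ℂ) (χ (l₁ : ZMod D))) =
        χ ((ω : ZMod D) * (l₁ : ZMod D))⁻¹ * χ (l₂ : ZMod D) := by
      intro χ
      rw [← PLN_star χ hun, map_mul χ, map_mul (starRingEnd ℂ)]
      ring
    rw [Finset.sum_congr rfl fun χ _ => h1 χ, DirichletCharacter.sum_char_inv_mul_char_eq ℂ hun]
    have hdiv : ((D : ℤ) ∣ l₂ - ω * l₁) ↔ (ω : ZMod D) * (l₁ : ZMod D) = (l₂ : ZMod D) := by
      rw [← ZMod.intCast_zmod_eq_zero_iff_dvd]
      push_cast
      rw [sub_eq_zero]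
      exact eq_comm
    by_cases h : (ω : ZMod D) * (l₁ : ZMod D) = (l₂ : ZMod D)
    · rw [if_pos h, if_pos ⟨hc, hdiv.2 h⟩]
    · rw [if_neg h, if_neg fun h2 => h (hdiv.1 h2.2)]
  · have hu : ¬ IsUnit (l₁ : ZMod D) := by
      intro h
      exact hc ((ZMod.coe_int_isUnit_iff_isCoprime l₁ D).1 h).symm
    rw [if_neg fun h => hc h.1]
    refine Finset.sum_eq_zero fun χ _ => ?_
    rw [MulChar.map_nonunit χ hu, map_zero, mul_zero, mul_zero]

open scoped Classical in
private theorem CHE_eq (x K₃ K₄ : ℕ) (lam : ℤ → ℝ) (b : ℕ) (m : ℤ) (D : ℕ) [NeZero D] (ω : ℤ)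
    (hω : IsCoprime ω (D : ℤ)) :
    ∑ χ : DirichletCharacter ℂ D, (starRingEnd ℂ) (χ (ω : ZMod D)) * Gc x K₃ K₄ lam b m χ =
      (Nat.totient D : ℂ) * ((Eg x K₃ K₄ lam b m D ω : ℝ) : ℂ) := by
  have h1 : ∀ χ : DirichletCharacter ℂ D, (starRingEnd ℂ) (χ (ω : ZMod D)) * Gc x K₃ K₄ lam b m χ =
      ∑ i ∈ Ico (b * K₄) ((b + 1) * K₄), ∑ j ∈ (range (K₃ * K₄)).filter fun j : ℕ => (j : ℤ) - i = m,
        ∑ l₁ ∈ cl x (K₃ * K₄) i, ∑ l₂ ∈ cl x (K₃ * K₄) j, (lam l₁ : ℂ) * (lam l₂ : ℂ) *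
          ((starRingEnd ℂ) (χ (ω : ZMod D)) * (χ (l₂ : ZMod D) * (starRingEnd ℂ) (χ (l₁ : ZMod D)))) := by
    intro χ
    unfold Gc
    rw [Finset.mul_sum]
    refine Finset.sum_congr rfl fun i _ => ?_
    rw [Finset.mul_sum]
    refine Finset.sum_congr rfl fun j _ => ?_
    unfold Fc
    rw [map_sum, mul_comm (∑ l ∈ cl x (K₃ * K₄) j, (lam l : ℂ) * χ (l : ZMod D)), Finset.sum_mul_sum,
      Finset.mul_sum]
    refine Finset.sum_congr rfl fun l₁ _ => ?_
    rw [Finset.mul_sum]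
    refine Finset.sum_congr rfl fun l₂ _ => ?_
    rw [map_mul, Complex.conj_ofReal]
    ring
  rw [Finset.sum_congr rfl fun χ _ => h1 χ, Finset.sum_comm]
  unfold Eg
  rw [Complex.ofReal_sum, Finset.mul_sum]
  refine Finset.sum_congr rfl fun i _ => ?_
  rw [Finset.sum_comm, Complex.ofReal_sum, Finset.mul_sum]
  refine Finset.sum_congr rfl fun j _ => ?_
  rw [Finset.sum_comm, Complex.ofReal_sum, Finset.mul_sum]
  refine Finset.sum_congr rfl fun l₁ _ => ?_
  rw [Finset.sum_comm, Complex.ofReal_sum, Finset.mul_sum]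
  refine Finset.sum_congr rfl fun l₂ _ => ?_
  rw [← Finset.mul_sum, CHE_key hω]
  by_cases h : IsCoprime l₁ (D : ℤ) ∧ (D : ℤ) ∣ l₂ - ω * l₁
  · rw [if_pos h, if_pos h]
    push_cast
    ring
  · rw [if_neg h, if_neg h]
    push_cast
    ring

open scoped Classical in
theorem CHE : CHE_stmt := by
  constructor
  · intro x K₃ K₄ R₀ R₁ lam b m D ω hD hω hR
    have : NeZero D := ⟨by omega⟩
    have hφ : (Nat.totient D : ℂ) ≠ 0 := by
      have h1 := Nat.totient_pos.2 (show 0 < D by omega)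
      exact_mod_cast h1.ne'
    have h1 := CHE_eq x K₃ K₄ lam b m D ω hω
    have h2 : ((Eg x K₃ K₄ lam b m D ω : ℝ) : ℂ) = 1 / (Nat.totient D : ℂ) *
        ∑ χ : DirichletCharacter ℂ D, (starRingEnd ℂ) (χ (ω : ZMod D)) * Gc x K₃ K₄ lam b m χ := by
      rw [h1, one_div, ← mul_assoc, inv_mul_cancel₀ hφ, one_mul]
    rw [h2]
    unfold Ec
    rw [← mul_add, ← mul_add]
    refine congrArg (fun t => 1 / (Nat.totient D : ℂ) * t) ?_
    rw [Finset.sum_filter, Finset.sum_filter, Finset.sum_filter, ← Finset.sum_add_distrib, ← Finset.sum_add_distrib]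
    refine Finset.sum_congr rfl fun χ _ => ?_
    rcases le_or_gt χ.conductor R₀ with g1 | g1
    · rw [if_pos (show (fun r => r ≤ R₀) χ.conductor from g1),
        if_neg (show ¬ (fun r => R₀ < r ∧ r ≤ R₁) χ.conductor from fun g => by have := g.1; omega),
        if_neg (show ¬ (fun r => R₁ < r) χ.conductor from fun g => by
          have h5 : R₁ < χ.conductor := g
          omega)]
      ring
    · rcases le_or_gt χ.conductor R₁ with g2 | g2
      · rw [if_neg (show ¬ (fun r => r ≤ R₀) χ.conductor from fun g => by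
            have h5 : χ.conductor ≤ R₀ := g
            omega),
          if_pos (show (fun r => R₀ < r ∧ r ≤ R₁) χ.conductor from ⟨g1, g2⟩),
          if_neg (show ¬ (fun r => R₁ < r) χ.conductor from fun g => by
            have h5 : R₁ < χ.conductor := g
            omega)]
        ring
      · rw [if_neg (show ¬ (fun r => r ≤ R₀) χ.conductor from fun g => by
            have h5 : χ.conductor ≤ R₀ := g
            omega),
          if_neg (show ¬ (fun r => R₀ < r ∧ r ≤ R₁) χ.conductor from fun g => by have := g.2; omega),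
          if_pos (show (fun r => R₁ < r) χ.conductor from g2)]
        ring
  · intro x K₃ K₄ R₁ lam b m D ω
    unfold EgL Ec
    exact congrArg (fun t : ℂ => ‖1 / (Nat.totient D : ℂ) * t‖)
      (Finset.sum_congr (Finset.filter_congr_decidable _ _ _) fun _ _ => rfl)

end Pool.Agent.EU
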